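import Pool.Agent.R610.Z0Main

set_option autoImplicit false

open Set Filter Topology

namespace Pool.Agent.Results.MP_af84fe_lc.AnalyticCountable

open Pool.Agent.R610.Z0Mad (toSet blk finite_big notMem_Z0_iff)

/-- The density zero ideal. -/
def Z0 : Set (Set ℕ) :=
  {A | Tendsto (fun n : ℕ => ((A ∩ Set.Iio n).ncard : ℝ) / (n : ℝ)) atTop (𝓝 0)}

/-- `𝒜` is an `I`-MAD family: a family of `I`-positive sets, pairwise almost disjoint modulo `I`,
such that every `I`-positive set has an `I`-positive intersection with some member. -/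
structure IsMAD (I : Set (Set ℕ)) (𝒜 : Set (Set ℕ)) : Prop where
  pos : ∀ A ∈ 𝒜, A ∉ I
  ad : ∀ A ∈ 𝒜, ∀ B ∈ 𝒜, A ≠ B → A ∩ B ∈ I
  max : ∀ X : Set ℕ, X ∉ I → ∃ A ∈ 𝒜, X ∩ A ∉ I

/-- `𝒜` is analytic, as a subset of Cantor space (sets are identified with their characteristic
functions). -/
def IsAnalyticFamily (𝒜 : Set (Set ℕ)) : Prop :=
  MeasureTheory.AnalyticSet {a : ℕ → Bool | {n | a n = true} ∈ 𝒜}

/-- Every analytic `Z₀`-MAD family is countable. -/
theorem result (𝒜 : Set (Set ℕ)) (han : IsAnalyticFamily 𝒜) (hmad : IsMAD Z0 𝒜) :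
    𝒜.Countable := by
  classical
  unfold IsAnalyticFamily at han
  rw [MeasureTheory.AnalyticSet] at han
  rcases han with hempty | ⟨g, hg, hrange⟩
  · have h1 : 𝒜 = ∅ := by
      rw [Set.eq_empty_iff_forall_notMem]
      intro A hA
      have h2 : (fun n => decide (n ∈ A)) ∈ {a : ℕ → Bool | {n | a n = true} ∈ 𝒜} := by
        show {n | decide (n ∈ A) = true} ∈ 𝒜
        have h3 : {n | decide (n ∈ A) = true} = A := by ext n; simp
        rw [h3]; exact hA
      rw [hempty] at h2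
      exact h2
    rw [h1]
    exact Set.countable_empty
  · have hr : ∀ A, A ∈ 𝒜 ↔ ∃ x, toSet (g x) = A := by
      intro A
      constructor
      · intro hA
        have h2 : (fun n => decide (n ∈ A)) ∈ {a : ℕ → Bool | {n | a n = true} ∈ 𝒜} := by
          show {n | decide (n ∈ A) = true} ∈ 𝒜
          have h3 : {n | decide (n ∈ A) = true} = A := by ext n; simp
          rw [h3]; exact hA
        rw [← hrange] at h2
        obtain ⟨x, hx⟩ := h2
        refine ⟨x, ?_⟩
        rw [hx]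
        ext n
        simp [toSet]
      · rintro ⟨x, rfl⟩
        have h2 : g x ∈ {a : ℕ → Bool | {n | a n = true} ∈ 𝒜} := by
          rw [← hrange]; exact ⟨x, rfl⟩
        exact h2
    have hmad' : Pool.Agent.R610.Z0Mad.IsMAD Pool.Agent.R610.Z0Mad.Z0 𝒜 :=
      ⟨hmad.pos, hmad.ad, hmad.max⟩
    have hcov : 𝒜 ⊆ ⋃ K : ℕ, {A ∈ 𝒜 | ∃ᶠ m in atTop, 2 ^ m ≤ K * blk A m} := by
      intro A hA
      obtain ⟨K, hK⟩ := (notMem_Z0_iff A).1 (hmad.pos A hA)
      exact mem_iUnion.2 ⟨K, hA, hK⟩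
    exact (Set.countable_iUnion fun K => (finite_big hg hr hmad' K).countable).mono hcov

end Pool.Agent.Results.MP_af84fe_lc.AnalyticCountable
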